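import Mathlib
import Pool.Agent.Q307.MSc.Defs

set_option autoImplicit false

/-! MP_e7d137_lc, Q2: the class of Q1 is not the class of Vorob'ev-regular scenarios. -/

namespace Pool.Agent.Results.MP_e7d137_lc.RegularButContextual

open Pool.Agent.Q307.MSc

/-- the scenario with facets `{0,1,2,3}` and `{0,1,4}` -/
def M : Set (Finset (Fin 5)) := {S | S ⊆ {0, 1, 2, 3} ∨ S ⊆ {0, 1, 4}}

/-- the values, as natural numbers -/
def gn (S : Finset (Fin 5)) : ℕ :=
  if S ⊆ {0, 1, 2, 3} then
    (if S.card = 0 then 0 else if S.card = 1 then 2 else if S.card = 2 then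
      (if S = {2, 3} then 4 else 3) else 4)
  else
    (if 0 ∈ S ∧ 1 ∈ S then 3 else if 0 ∈ S ∨ 1 ∈ S then 2 else 1)

instance (S : Finset (Fin 5)) : Decidable (S ∈ M) :=
  inferInstanceAs (Decidable (S ⊆ {0, 1, 2, 3} ∨ S ⊆ {0, 1, 4}))

theorem gn_mono : ∀ S T : Finset (Fin 5), S ∈ M → T ∈ M → S ⊆ T → gn S ≤ gn T := by decide

theorem gn_submod : ∀ S T : Finset (Fin 5), S ∈ M → T ∈ M → S ∪ T ∈ M →
    gn (S ∪ T) + gn (S ∩ T) ≤ gn S + gn T := by decide

theorem partial_gn : IsPartialPolymatroid M (fun S => (gn S : ℝ)) where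
  empty := by
    have : gn ∅ = 0 := by decide
    simp [this]
  nonneg := fun S _ => Nat.cast_nonneg _
  mono := fun S hS T hT h => by exact_mod_cast gn_mono S T hS hT h
  submod := fun S hS T hT h => by exact_mod_cast gn_submod S T hS hT h

theorem facet_iff : ∀ S : Finset (Fin 5), IsFacet M S ↔ S = {0, 1, 2, 3} ∨ S = {0, 1, 4} := by
  unfold IsFacet
  decide

theorem regular : VorobevRegular M := by
  refine ⟨2, ![{0, 1, 2, 3}, {0, 1, 4}], by decide, ?_, by decide⟩
  intro S
  rw [facet_iff]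
  constructor
  · rintro (h | h)
    · exact ⟨0, h.symm⟩
    · exact ⟨1, h.symm⟩
  · rintro ⟨i, hi⟩
    fin_cases i
    · exact Or.inl hi.symm
    · exact Or.inr hi.symm

theorem contextual : ¬ NonContextual M (fun S => (gn S : ℝ)) := by
  rintro ⟨f, hf, hg⟩
  have v : ∀ (S : Finset (Fin 5)) (m : ℕ), S ∈ M → gn S = m → f S = m := by
    intro S m hS hm
    have h := hg S hS
    simp only [hm] at h
    exact h
  have e4 := v {4} 1 (by decide) (by decide)
  have e0 := v {0} 2 (by decide) (by decide)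
  have e1 := v {1} 2 (by decide) (by decide)
  have e04 := v {0, 4} 2 (by decide) (by decide)
  have e14 := v {1, 4} 2 (by decide) (by decide)
  have e02 := v {0, 2} 3 (by decide) (by decide)
  have e12 := v {1, 2} 3 (by decide) (by decide)
  have e03 := v {0, 3} 3 (by decide) (by decide)
  have e13 := v {1, 3} 3 (by decide) (by decide)
  have e23 := v {2, 3} 4 (by decide) (by decide)
  have e012 := v {0, 1, 2} 4 (by decide) (by decide)
  have e013 := v {0, 1, 3} 4 (by decide) (by decide)
  push_cast at *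
  have sub : ∀ S T U W : Finset (Fin 5), S ∪ T = U → S ∩ T = W → f U + f W ≤ f S + f T := by
    rintro S T U W rfl rfl
    exact hf.submod S T
  have a1 := sub {0, 2} {0, 4} {0, 2, 4} {0} (by decide) (by decide)
  have a2 := sub {1, 2} {1, 4} {1, 2, 4} {1} (by decide) (by decide)
  have a3 := sub {0, 2, 4} {1, 2, 4} {0, 1, 2, 4} {2, 4} (by decide) (by decide)
  have a4 := hf.mono {0, 1, 2} {0, 1, 2, 4} (by decide)
  have b1 := sub {0, 3} {0, 4} {0, 3, 4} {0} (by decide) (by decide)
  have b2 := sub {1, 3} {1, 4} {1, 3, 4} {1} (by decide) (by decide)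
  have b3 := sub {0, 3, 4} {1, 3, 4} {0, 1, 3, 4} {3, 4} (by decide) (by decide)
  have b4 := hf.mono {0, 1, 3} {0, 1, 3, 4} (by decide)
  have c1 := sub {2, 4} {3, 4} {2, 3, 4} {4} (by decide) (by decide)
  have c2 := hf.mono {2, 3} {2, 3, 4} (by decide)
  linarith

/-- There is a Vorob'ev-regular marginal scenario which carries a contextual partial
polymatroid. -/
theorem result : ∃ (n : ℕ) (M : Set (Finset (Fin n))), IsScenario M ∧ VorobevRegular M ∧
    ∃ g : Finset (Fin n) → ℝ, IsPartialPolymatroid M g ∧ ¬ NonContextual M g := by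
  refine ⟨5, M, ⟨Or.inl (Finset.empty_subset _), ?_⟩, regular, _, partial_gn, contextual⟩
  intro S hS T hTS
  rcases hS with h | h
  · exact Or.inl (hTS.trans h)
  · exact Or.inr (hTS.trans h)

end Pool.Agent.Results.MP_e7d137_lc.RegularButContextual
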